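import Pool.Agent.H238.PH.Spec

set_option autoImplicit false

/-! # Task I1 of project PH: the pointwise algebra (helper264 for helper238) -/

namespace Pool.Agent.H264.PH

open Pool.Agent.H238.PH
open scoped ComplexConjugate

theorem nsq (z : ℂ) : ‖z‖ ^ 2 = z.re ^ 2 + z.im ^ 2 := by
  rw [Complex.sq_norm, Complex.normSq_apply]
  ring

theorem key1 (z y : ℂ) (C r μ : ℝ) :
    ((-(C : ℂ) * z + (r : ℂ) * y + Complex.I * (μ : ℂ) * y) *
      conj (y + Complex.I * (μ : ℂ) * z)).im =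
      μ * (‖y‖ ^ 2 + C * ‖z‖ ^ 2 - r * (conj z * y).re) + (C + μ ^ 2) * (conj z * y).im := by
  rw [nsq, nsq]
  simp
  ring

theorem key2 (z y : ℂ) (μ : ℝ) : ‖y + Complex.I * (μ : ℂ) * z‖ ^ 2 =
    ‖y‖ ^ 2 + μ ^ 2 * ‖z‖ ^ 2 + 2 * μ * (conj z * y).im := by
  rw [nsq, nsq, nsq]
  simp
  ring

theorem key3 (z y : ℂ) (β μ : ℝ) :
    ((y + Complex.I * (β : ℂ) * z) * conj (y + Complex.I * (μ : ℂ) * z)).re =
      ‖y‖ ^ 2 + β * μ * ‖z‖ ^ 2 + (β + μ) * (conj z * y).im := by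
  rw [nsq, nsq]
  simp
  ring

theorem cs (z y : ℂ) : (conj z * y).re ^ 2 ≤ ‖z‖ ^ 2 * ‖y‖ ^ 2 := by
  rw [nsq, nsq]
  simp
  nlinarith [sq_nonneg (z.re * y.im - z.im * y.re)]

/-- the strict inequality -/
theorem ineq (p β X Y m Q D : ℝ) (hp : 1 < p) (hβ : 1 < β) (_hX : 0 ≤ X) (_hY : 0 ≤ Y)
    (hXY : 0 < Y + X) (hm : 0 ≤ m) (hQ : Q ≤ X * Y) (hD : D = Y + (p - 1) * X) (hD0 : 0 < D) :
    0 < X + (p - 1) * Y + p * β * m - (p - 2) ^ 2 * Q / D := by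
  have h1 : (p - 2) ^ 2 * Q / D ≤ (p - 2) ^ 2 * (X * Y) / D := by
    apply div_le_div_of_nonneg_right _ hD0.le
    exact mul_le_mul_of_nonneg_left hQ (sq_nonneg _)
  have h2 : (p - 2) ^ 2 * (X * Y) / D < X + (p - 1) * Y := by
    rw [div_lt_iff₀ hD0, hD]
    have h3 : (X + (p - 1) * Y) * (Y + (p - 1) * X) - (p - 2) ^ 2 * (X * Y) =
        (p - 1) * (Y + X) ^ 2 := by ring
    have h4 : 0 < (p - 1) * (Y + X) ^ 2 := mul_pos (by linarith) (pow_pos hXY 2)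
    linarith
  have h5 : 0 ≤ p * β * m := by positivity
  linarith

theorem t_I1 : S_I1 := by
  intro p β z y hp hβ hpos hm C K D q hC hK hq hD
  have hz0 : 0 ≤ ‖z‖ ^ 2 := sq_nonneg _
  have hy0 : 0 ≤ ‖y‖ ^ 2 := sq_nonneg _
  have hp1 : 0 < p - 1 := by linarith
  have hb1 : 0 < β - 1 := by linarith
  have hβ0 : 0 < β := by linarith
  have hCe : C = β * (1 + (p - 1) * (β - 1)) := by
    rw [hC]; unfold CC; ring
  have hC0 : 0 < C := by
    rw [hCe]; positivity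
  have hK0 : 0 ≤ K := by
    rw [hK]; unfold KK; positivity
  have hβ2 : 0 < β ^ 2 := by positivity
  have hbz : 0 ≤ β ^ 2 * ‖z‖ ^ 2 := by positivity
  have hD0 : 0 < D := by
    rw [hD]
    rcases lt_or_eq_of_le hy0 with h | h
    · have : 0 < (p - 1) * ‖y‖ ^ 2 := mul_pos hp1 h
      linarith
    · rw [← h] at hpos ⊢
      linarith
  have hcs := cs z y
  rw [← hq] at hcs
  obtain ⟨m, hmd⟩ : ∃ m, m = (conj z * y).im := ⟨_, rfl⟩
  rw [← hmd] at hm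
  have hs0 : 0 < Real.sqrt C := Real.sqrt_pos.2 hC0
  have hs2 : Real.sqrt C ^ 2 = C := Real.sq_sqrt hC0.le
  refine ⟨hC0, hD0, ?_, ?_, ?_⟩
  · rw [key1, key2, ← hq, ← hmd, hs2]
    have h1 : 0 ≤ Real.sqrt C * (K * q / D * q) := by
      have h2 : K * q / D * q = K * q ^ 2 / D := by ring
      rw [h2]
      positivity
    have h3 : Real.sqrt C * (‖y‖ ^ 2 + C * ‖z‖ ^ 2 - K * q / D * q) + (C + C) * m =
        Real.sqrt C * (‖y‖ ^ 2 + C * ‖z‖ ^ 2) + 2 * C * m - Real.sqrt C * (K * q / D * q) := by ring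
    have h4 : Real.sqrt C * (‖y‖ ^ 2 + C * ‖z‖ ^ 2 + 2 * Real.sqrt C * m) =
        Real.sqrt C * (‖y‖ ^ 2 + C * ‖z‖ ^ 2) + 2 * Real.sqrt C ^ 2 * m := by ring
    rw [h3, h4, hs2]
    linarith
  · rw [key1, key2, ← hq, ← hmd]
    have h1 := ineq p β (‖y‖ ^ 2) (β ^ 2 * ‖z‖ ^ 2) m (β ^ 2 * q ^ 2) D hp hβ hy0 hbz hpos hm
      (by
        have := mul_le_mul_of_nonneg_left hcs hβ2.le
        linarith) hD hD0
    have h2 : β * (‖y‖ ^ 2 + C * ‖z‖ ^ 2 - K * q / D * q) + (C + β ^ 2) * m -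
        (‖y‖ ^ 2 + β ^ 2 * ‖z‖ ^ 2 + 2 * β * m) = (β - 1) *
        (‖y‖ ^ 2 + (p - 1) * (β ^ 2 * ‖z‖ ^ 2) + p * β * m - (p - 2) ^ 2 * (β ^ 2 * q ^ 2) / D) := by
      rw [hCe, hK]
      unfold KK
      field_simp
      ring
    have h3 := mul_pos hb1 h1
    rw [← h2] at h3
    linarith
  · rw [key3, ← hmd]
    have h1 : 0 ≤ (β + Real.sqrt C) * m := by positivity
    rcases lt_or_eq_of_le hy0 with h | h
    · have h2 : 0 ≤ β * Real.sqrt C * ‖z‖ ^ 2 := by positivity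
      linarith
    · rw [← h] at hpos ⊢
      have h3 : 0 < ‖z‖ ^ 2 := by
        rcases lt_or_eq_of_le hz0 with h4 | h4
        · exact h4
        · rw [← h4] at hpos
          simp at hpos
      have h2 : 0 < β * Real.sqrt C * ‖z‖ ^ 2 := by positivity
      linarith

end Pool.Agent.H264.PH
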